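import Pool.Agent.Helper70.SUB.SheetA

/-!
Project SUB, rows T1B and T1C: common part.
-/

set_option autoImplicit false

namespace Pool.Agent.Helper94.SUB

open Finset
open Pool.Agent.Helper70.SUB

/-- pigeonhole -/
theorem pig {β : Type} [Finite β] {M : Set ℕ} (hM : M.Infinite) (f : ℕ → β) :
    ∃ b, {j | j ∈ M ∧ f j = b}.Infinite := by
  by_contra hc
  push Not at hc
  apply hM
  have h : M ⊆ ⋃ b, {j | j ∈ M ∧ f j = b} := by
    intro j hj
    simp only [Set.mem_iUnion, Set.mem_ofPred_eq]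
    exact ⟨f j, hj, rfl⟩
  refine Set.Finite.subset (Set.finite_iUnion fun b => ?_) h
  have := hc b
  simpa [Set.not_infinite] using this

theorem indep_mono {r : ℕ} {M M' : Set ℕ} {w : ℕ → Fin r → ℚ} (h : M' ⊆ M) (hi : Indep M w) :
    Indep M' w :=
  ⟨fun j hj k => hi.1 j (h hj) k, fun l ρ hl => (hi.2 l ρ hl).subset fun _ hj => ⟨h hj.1, hj.2⟩⟩

theorem SU_mono {S S' : Finset ℕ} (h : S ⊆ S') {u : ℤ} (hu : SU S u) : SU S' u :=
  ⟨hu.1, fun q hq hd => h (hu.2 q hq hd)⟩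

theorem SU_one (S : Finset ℕ) : SU S 1 := by
  refine ⟨one_ne_zero, fun q hq hd => ?_⟩
  exfalso
  have h1 : (q : ℤ) ∣ ((1 : ℕ) : ℤ) := by simpa using hd
  have h2 : q ∣ 1 := Int.natCast_dvd_natCast.mp h1
  exact hq.one_lt.ne' (Nat.dvd_one.mp h2)

theorem SU_mul {S : Finset ℕ} {u v : ℤ} (hu : SU S u) (hv : SU S v) : SU S (u * v) := by
  refine ⟨mul_ne_zero hu.1 hv.1, fun q hq hd => ?_⟩
  rcases (Nat.prime_iff_prime_int.mp hq).dvd_or_dvd hd with h | h
  · exact hu.2 q hq h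
  · exact hv.2 q hq h

theorem SU_pow {S : Finset ℕ} {u : ℤ} (hu : SU S u) (n : ℕ) : SU S (u ^ n) := by
  induction n with
  | zero => simpa using SU_one S
  | succ n ih =>
    rw [pow_succ]
    exact SU_mul ih hu

theorem SU_prod {S : Finset ℕ} {ι : Type} (s : Finset ι) (f : ι → ℤ) (hf : ∀ i ∈ s, SU S (f i)) :
    SU S (∏ i ∈ s, f i) := by
  classical
  induction s using Finset.induction_on with
  | empty => simpa using SU_one S
  | insert a s ha ih =>
    rw [Finset.prod_insert ha]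
    exact SU_mul (hf a (Finset.mem_insert_self a s)) (ih fun i hi => hf i (Finset.mem_insert_of_mem hi))

theorem SU_dvd {S : Finset ℕ} {u v : ℤ} (hv : SU S v) (h : u ∣ v) : SU S u := by
  refine ⟨fun h0 => hv.1 ?_, fun q hq hd => hv.2 q hq (hd.trans h)⟩
  rw [h0] at h
  exact zero_dvd_iff.mp h

theorem SU_abs {S : Finset ℕ} {u : ℤ} (hu : SU S u) : SU S |u| :=
  SU_dvd hu (abs_dvd_self u)

/-- the primes of a rational number -/
def prs (κ : ℚ) : Finset ℕ := κ.num.natAbs.primeFactors ∪ κ.den.primeFactors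

theorem prs_prime {κ : ℚ} {q : ℕ} (h : q ∈ prs κ) : q.Prime := by
  rcases Finset.mem_union.mp h with h | h
  · exact Nat.prime_of_mem_primeFactors h
  · exact Nat.prime_of_mem_primeFactors h

theorem SU_num {κ : ℚ} (hκ : 0 < κ) : SU (prs κ) κ.num := by
  have h0 : κ.num ≠ 0 := (Rat.num_pos.mpr hκ).ne'
  refine ⟨h0, fun q hq hd => Finset.mem_union_left _ ?_⟩
  exact Nat.mem_primeFactors.mpr ⟨hq, Int.natCast_dvd.mp hd, Int.natAbs_ne_zero.mpr h0⟩

theorem SU_den (κ : ℚ) : SU (prs κ) (κ.den : ℤ) := by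
  refine ⟨by exact_mod_cast κ.den_nz, fun q hq hd => Finset.mem_union_right _ ?_⟩
  exact Nat.mem_primeFactors.mpr ⟨hq, Int.natCast_dvd_natCast.mp hd, κ.den_nz⟩

/-- height of a monomial -/
theorem SQ_mon {ι : Type} [Fintype ι] (S : Finset ℕ) (κ : ℚ) (hκ : 0 < κ) (e : ι → ℤ)
    (u : ι → ℤ) (hu : ∀ i, SU S (u i)) (U : ℝ) (hU : 1 ≤ U) (hb : ∀ i, |(u i : ℝ)| ≤ U) :
    SQ (S ∪ prs κ) ((|(κ.num : ℝ)| + κ.den) * U ^ (∑ i, (e i).natAbs)) (κ * ∏ i, |(u i : ℚ)| ^ (e i)) := by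
  set P : ℤ := κ.num * ∏ i, |u i| ^ (e i).toNat with hP
  set Q : ℤ := κ.den * ∏ i, |u i| ^ (-e i).toNat with hQ
  have hSP : SU (S ∪ prs κ) P :=
    SU_mul (SU_mono Finset.subset_union_right (SU_num hκ))
      (SU_prod _ _ fun i _ => SU_pow (SU_abs (SU_mono Finset.subset_union_left (hu i))) _)
  have hSQ : SU (S ∪ prs κ) Q :=
    SU_mul (SU_mono Finset.subset_union_right (SU_den κ))
      (SU_prod _ _ fun i _ => SU_pow (SU_abs (SU_mono Finset.subset_union_left (hu i))) _)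
  have hx : κ * ∏ i, |(u i : ℚ)| ^ (e i) = Rat.divInt P Q := by
    rw [Rat.divInt_eq_div, hP, hQ]
    push_cast
    have h1 : ∀ i, |(u i : ℚ)| ^ (e i) = |(u i : ℚ)| ^ (e i).toNat / |(u i : ℚ)| ^ (-e i).toNat := by
      intro i
      have h0 : |(u i : ℚ)| ≠ 0 := abs_ne_zero.mpr (by exact_mod_cast (hu i).1)
      rw [← zpow_natCast, ← zpow_natCast, ← zpow_sub₀ h0]
      congr 1
      omega
    rw [Finset.prod_congr rfl fun i _ => h1 i, Finset.prod_div_distrib]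
    nth_rw 1 [← Rat.num_div_den κ]
    ring
  have hn : (κ * ∏ i, |(u i : ℚ)| ^ (e i)).num ∣ P := by
    rw [hx]
    exact Rat.num_dvd P hSQ.1
  have hd : ((κ * ∏ i, |(u i : ℚ)| ^ (e i)).den : ℤ) ∣ Q := by
    rw [hx]
    exact Rat.den_dvd P Q
  have hprod : ∀ g : ι → ℕ, (∀ i, g i ≤ (e i).natAbs) →
      ((∏ i, |u i| ^ (g i) : ℤ) : ℝ) ≤ U ^ (∑ i, (e i).natAbs) := by
    intro g hg
    push_cast
    rw [← Finset.prod_pow_eq_pow_sum]
    apply Finset.prod_le_prod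
    · intro i _
      positivity
    · intro i _
      calc |(u i : ℝ)| ^ (g i) ≤ U ^ (g i) := pow_le_pow_left₀ (abs_nonneg _) (hb i) _
        _ ≤ U ^ (e i).natAbs := pow_le_pow_right₀ hU (hg i)
  refine ⟨SU_dvd hSP hn, SU_dvd hSQ hd, ?_, ?_⟩
  · have h1 : |(κ * ∏ i, |(u i : ℚ)| ^ (e i)).num| ≤ |P| := by
      apply Int.le_of_dvd (abs_pos.mpr hSP.1)
      rw [abs_dvd, dvd_abs]
      exact hn
    have h2 : |((κ * ∏ i, |(u i : ℚ)| ^ (e i)).num : ℝ)| ≤ |(P : ℝ)| := by exact_mod_cast h1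
    refine h2.trans ?_
    rw [hP]
    push_cast
    rw [abs_mul]
    have h3 := hprod (fun i => (e i).toNat) (fun i => by omega)
    push_cast at h3
    have h4 : |∏ i, |(u i : ℝ)| ^ (e i).toNat| = ∏ i, |(u i : ℝ)| ^ (e i).toNat :=
      abs_of_nonneg (Finset.prod_nonneg fun i _ => by positivity)
    rw [h4]
    have h5 : (0 : ℝ) ≤ (κ.den : ℝ) := by positivity
    apply mul_le_mul _ h3 (Finset.prod_nonneg fun i _ => by positivity) (by positivity)
    linarith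
  · have h1 : ((κ * ∏ i, |(u i : ℚ)| ^ (e i)).den : ℤ) ≤ |Q| := by
      apply Int.le_of_dvd (abs_pos.mpr hSQ.1)
      rw [dvd_abs]
      exact hd
    have h2 : ((κ * ∏ i, |(u i : ℚ)| ^ (e i)).den : ℝ) ≤ |(Q : ℝ)| := by exact_mod_cast h1
    refine h2.trans ?_
    rw [hQ]
    push_cast
    rw [abs_mul]
    have h3 := hprod (fun i => (-e i).toNat) (fun i => by omega)
    push_cast at h3
    have h4 : |∏ i, |(u i : ℝ)| ^ (-e i).toNat| = ∏ i, |(u i : ℝ)| ^ (-e i).toNat :=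
      abs_of_nonneg (Finset.prod_nonneg fun i _ => by positivity)
    rw [h4]
    have h5 : |(κ.den : ℝ)| = κ.den := abs_of_nonneg (by positivity)
    have h6 : (0 : ℝ) ≤ |(κ.num : ℝ)| := abs_nonneg _
    apply mul_le_mul _ h3 (Finset.prod_nonneg fun i _ => by positivity) (by positivity)
    rw [h5]
    linarith

theorem SQ_mono {S S' : Finset ℕ} (h : S ⊆ S') {H H' : ℝ} (hH : H ≤ H') {x : ℚ} (hx : SQ S H x) :
    SQ S' H' x :=
  ⟨SU_mono h hx.1, SU_mono h hx.2.1, hx.2.2.1.trans hH, hx.2.2.2.trans hH⟩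

/-! ### evaluation -/

theorem evL_zero {r : ℕ} (w : Fin r → ℚ) : evL w 0 = 0 := by
  simp [evL]

theorem mon_zero {r : ℕ} (w : Fin r → ℚ) : mon w 0 = 1 := by
  simp [mon]

theorem mon_neg {r : ℕ} (w : Fin r → ℚ) (m : Fin r → ℤ) : mon w (-m) = (mon w m)⁻¹ := by
  simp [mon, zpow_neg]

theorem evL_one (hLAUB : ST_LAUB) {r : ℕ} {w : Fin r → ℚ} (hw : ∀ k, 0 < w k) : evL w (1 : Lau r) = 1 := by
  rw [AddMonoidAlgebra.one_def, ((hLAUB r).1 w hw).2.1, mon_zero, mul_one]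

theorem evL_sum (hLAUB : ST_LAUB) {r : ℕ} {w : Fin r → ℚ} (hw : ∀ k, 0 < w k) {ι : Type} (s : Finset ι)
    (f : ι → Lau r) : evL w (∑ i ∈ s, f i) = ∑ i ∈ s, evL w (f i) := by
  classical
  induction s using Finset.induction_on with
  | empty => simpa using evL_zero w
  | insert a s ha ih => rw [Finset.sum_insert ha, Finset.sum_insert ha, ((hLAUB r).1 w hw).2.2.1, ih]

theorem evL_mul (hLAUB : ST_LAUB) {r : ℕ} {w : Fin r → ℚ} (hw : ∀ k, 0 < w k) (F G : Lau r) :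
    evL w (F * G) = evL w F * evL w G := ((hLAUB r).1 w hw).2.2.2.2 F G

theorem evL_add (hLAUB : ST_LAUB) {r : ℕ} {w : Fin r → ℚ} (hw : ∀ k, 0 < w k) (F G : Lau r) :
    evL w (F + G) = evL w F + evL w G := ((hLAUB r).1 w hw).2.2.1 F G

theorem evL_smul (hLAUB : ST_LAUB) {r : ℕ} {w : Fin r → ℚ} (hw : ∀ k, 0 < w k) (c : ℚ) (F : Lau r) :
    evL w (c • F) = c * evL w F := ((hLAUB r).1 w hw).2.2.2.1 c F

theorem evL_pow (hLAUB : ST_LAUB) {r : ℕ} {w : Fin r → ℚ} (hw : ∀ k, 0 < w k) (F : Lau r) (n : ℕ) :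
    evL w (F ^ n) = evL w F ^ n := by
  induction n with
  | zero => rw [pow_zero, pow_zero, evL_one hLAUB hw]
  | succ n ih => rw [pow_succ, pow_succ, evL_mul hLAUB hw, ih]

/-! ### the common part -/

theorem com (hMONO : ST_MONO) (hLAUB : ST_LAUB) (S : Finset ℕ) (hS : ∀ p ∈ S, p.Prime) (t : ℕ)
    (M : Set ℕ) (hM : M.Infinite) (w : ℕ → ℤ) (a : ℕ → Fin t → ℤ) (hw : ∀ j ∈ M, SU S (w j))
    (ha : ∀ j ∈ M, ∀ i, a j i = 0 ∨ SU S (a j i))
    (hb : ∀ j ∈ M, ∀ i, |(a j i : ℝ)| ≤ |(w j : ℝ)| ^ (3 : ℕ))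
    (hinf : ∀ B : ℝ, {j | j ∈ M ∧ |(w j : ℝ)| ≤ B}.Finite) :
    ∃ (M' : Set ℕ) (S' : Finset ℕ) (r : ℕ) (v : ℕ → Fin r → ℚ) (W Wi A : Lau r) (E : ℝ) (σ : ℚ),
      M' ⊆ M ∧ M'.Infinite ∧ S ⊆ S' ∧ (∀ p ∈ S', p.Prime) ∧ 0 < E ∧ Indep M' v ∧ (σ = 1 ∨ σ = -1) ∧
      ∀ j ∈ M', (∀ k, SQ S' (|(w j : ℝ)| ^ E) (v j k)) ∧ evL (v j) W = w j ∧
        evL (v j) Wi = (w j : ℚ)⁻¹ ∧ evL (v j) A = ∑ i, (a j i : ℚ) ∧ |(w j : ℚ)| = σ * w j := by
  classical
  obtain ⟨⟨b, s⟩, hM1⟩ := pig hM (fun j => ((fun i => decide (a j i = 0) : Fin t → Bool), decide (0 < w j)))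
  set M1 : Set ℕ := {j | j ∈ M ∧ ((fun i => decide (a j i = 0) : Fin t → Bool), decide (0 < w j)) = (b, s)} with hM1d
  have hM1M : M1 ⊆ M := fun j hj => hj.1
  have hpat : ∀ j ∈ M1, ∀ i, (b i = true ↔ a j i = 0) := by
    intro j hj i
    have h1 : (fun i => decide (a j i = 0) : Fin t → Bool) = b := (Prod.ext_iff.mp hj.2).1
    rw [← h1]
    simp
  have hsg : ∀ j ∈ M1, (s = true ↔ 0 < w j) := by
    intro j hj
    have h1 : decide (0 < w j) = s := (Prod.ext_iff.mp hj.2).2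
    rw [← h1]
    simp
  have hw1 : ∀ j ∈ M, (1 : ℝ) ≤ |(w j : ℝ)| := by
    intro j hj
    have h1 : (1 : ℤ) ≤ |w j| := Int.one_le_abs (hw j hj).1
    exact_mod_cast h1
  -- the units
  let u : ℕ → Option (Fin t) → ℤ := fun j i => i.elim (w j) (fun i => if a j i = 0 then 1 else a j i)
  have huS : ∀ j ∈ M, ∀ i, SU S (u j i) := by
    intro j hj i
    cases i with
    | none => exact hw j hj
    | some i =>
      show SU S (if a j i = 0 then 1 else a j i)
      split_ifs with h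
      · exact SU_one S
      · exact (ha j hj i).resolve_left h
  have huB : ∀ j ∈ M, ∀ i, |(u j i : ℝ)| ≤ |(w j : ℝ)| ^ (3 : ℕ) := by
    intro j hj i
    have h3 : (1 : ℝ) ≤ |(w j : ℝ)| ^ (3 : ℕ) := one_le_pow₀ (hw1 j hj)
    cases i with
    | none =>
      show |(w j : ℝ)| ≤ |(w j : ℝ)| ^ (3 : ℕ)
      exact le_self_pow₀ (hw1 j hj) (by norm_num)
    | some i =>
      show |((if a j i = 0 then 1 else a j i : ℤ) : ℝ)| ≤ |(w j : ℝ)| ^ (3 : ℕ)
      split_ifs with h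
      · simpa using h3
      · exact hb j hj i
  obtain ⟨M2, r, v, m, c, hM2M1, hM2i, hc, hind, hmon, hcoord⟩ :=
    hMONO (Option (Fin t)) M1 u hM1 (fun j hj i => (huS j (hM1M hj) i).1)
  choose κ e hκ hve using hcoord
  set S' : Finset ℕ := S ∪ Finset.univ.biUnion (fun k => prs (κ k)) with hS'
  set D : ℝ := ∑ k, (|((κ k).num : ℝ)| + (κ k).den) with hD
  set E0 : ℕ := ∑ k, ∑ i, (e k i).natAbs with hE0
  set M' : Set ℕ := M2 \ {j | j ∈ M ∧ |(w j : ℝ)| ≤ D} with hM'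
  refine ⟨M', S', r, v, AddMonoidAlgebra.single (m none) (c none),
    AddMonoidAlgebra.single (-m none) (c none)⁻¹,
    ∑ i ∈ Finset.univ.filter (fun i => b i = false), AddMonoidAlgebra.single (m (some i)) (c (some i)),
    ((3 * E0 + 1 : ℕ) : ℝ), if s then 1 else -1, ?_, ?_, ?_, ?_, ?_, ?_, ?_, ?_⟩
  · exact fun j hj => hM1M (hM2M1 hj.1)
  · exact hM2i.diff (hinf D)
  · exact Finset.subset_union_left
  · intro p hp
    rcases Finset.mem_union.mp hp with h | h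
    · exact hS p h
    · obtain ⟨k, _, hk⟩ := Finset.mem_biUnion.mp h
      exact prs_prime hk
  · positivity
  · exact indep_mono Set.diff_subset hind
  · split_ifs
    · left; rfl
    · right; rfl
  · intro j hj
    have hj2 : j ∈ M2 := hj.1
    have hj1 : j ∈ M1 := hM2M1 hj2
    have hjM : j ∈ M := hM1M hj1
    have hjD : D < |(w j : ℝ)| := by
      by_contra h
      exact hj.2 ⟨hjM, not_lt.mp h⟩
    have hv0 : ∀ k, 0 < v j k := hind.1 j hj2
    refine ⟨?_, ?_, ?_, ?_, ?_⟩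
    · intro k
      rw [hve k j hj2]
      have h1 := SQ_mon S (κ k) (hκ k) (e k) (u j) (huS j hjM) (|(w j : ℝ)| ^ (3 : ℕ))
        (one_le_pow₀ (hw1 j hjM)) (huB j hjM)
      refine SQ_mono ?_ ?_ h1
      · intro p hp
        rcases Finset.mem_union.mp hp with h | h
        · exact Finset.mem_union_left _ h
        · exact Finset.mem_union_right _ (Finset.mem_biUnion.mpr ⟨k, Finset.mem_univ _, h⟩)
      · rw [Real.rpow_natCast, pow_succ _ (3 * E0), mul_comm, ← pow_mul]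
        have h2 : |((κ k).num : ℝ)| + (κ k).den ≤ D := by
          rw [hD]
          exact Finset.single_le_sum (f := fun k => |((κ k).num : ℝ)| + ((κ k).den : ℝ))
            (fun k _ => by positivity) (Finset.mem_univ k)
        have h3 : ∑ i, (e k i).natAbs ≤ E0 := by
          rw [hE0]
          exact Finset.single_le_sum (f := fun k => ∑ i, (e k i).natAbs) (fun k _ => Nat.zero_le _)
            (Finset.mem_univ k)
        have h4 : |(w j : ℝ)| ^ (3 * ∑ i, (e k i).natAbs) ≤ |(w j : ℝ)| ^ (3 * E0) :=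
          pow_le_pow_right₀ (hw1 j hjM) (by omega)
        exact mul_le_mul h4 (h2.trans hjD.le) (by positivity) (by positivity)
    · rw [((hLAUB r).1 (v j) hv0).2.1, ← hmon j hj2 none]
      rfl
    · rw [((hLAUB r).1 (v j) hv0).2.1, mon_neg, ← mul_inv, ← hmon j hj2 none]
      rfl
    · rw [evL_sum hLAUB hv0, ← Finset.sum_filter_add_sum_filter_not Finset.univ (fun i => b i = false) (fun i => (a j i : ℚ))]
      have h1 : ∑ i ∈ Finset.univ.filter (fun i => ¬ b i = false), (a j i : ℚ) = 0 := by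
        apply Finset.sum_eq_zero
        intro i hi
        have h2 : b i = true := by simpa using (Finset.mem_filter.mp hi).2
        rw [(hpat j hj1 i).mp h2]
        norm_num
      rw [h1, add_zero]
      apply Finset.sum_congr rfl
      intro i hi
      have h2 : b i = false := (Finset.mem_filter.mp hi).2
      have h3 : a j i ≠ 0 := by
        intro h0
        rw [(hpat j hj1 i).mpr h0] at h2
        exact Bool.noConfusion h2
      rw [((hLAUB r).1 (v j) hv0).2.1, ← hmon j hj2 (some i)]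
      show ((if a j i = 0 then 1 else a j i : ℤ) : ℚ) = a j i
      rw [if_neg h3]
    · split_ifs with h
      · have h1 : 0 < w j := (hsg j hj1).mp h
        have h2 : (0 : ℚ) < w j := by exact_mod_cast h1
        rw [abs_of_pos h2, one_mul]
      · have h1 : ¬ 0 < w j := fun h0 => h ((hsg j hj1).mpr h0)
        have h2 : (w j : ℚ) ≤ 0 := by exact_mod_cast not_lt.mp h1
        rw [abs_of_nonpos h2, neg_one_mul]

end Pool.Agent.Helper94.SUB
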