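import Pool.Agent.Helper94.SUB.T1X

/-!
Project SUB, row T1B.
-/

set_option autoImplicit false

namespace Pool.Agent.Helper94.SUB

open Finset
open Pool.Agent.Helper70.SUB

/-- the threshold -/
theorem thr (t : ℕ) {δ : ℝ} (hδ : 0 < δ) (D : ℝ) :
    ∃ W0 : ℝ, ∀ W : ℝ, W0 ≤ W → 3 ≤ W ∧ (t : ℝ) * W ^ (-δ) ≤ 1 / 2 ∧ D ≤ W := by
  have h1 : Filter.Tendsto (fun W : ℝ => (t : ℝ) * W ^ (-δ)) Filter.atTop (nhds ((t : ℝ) * 0)) :=
    (tendsto_rpow_neg_atTop hδ).const_mul _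
  rw [mul_zero] at h1
  have h2 : ∀ᶠ W : ℝ in Filter.atTop, (t : ℝ) * W ^ (-δ) ≤ 1 / 2 := by
    have := h1.eventually (gt_mem_nhds (show (0 : ℝ) < 1 / 2 by norm_num))
    filter_upwards [this] with W hW using le_of_lt hW
  have h3 : ∀ᶠ W : ℝ in Filter.atTop, 3 ≤ W ∧ (t : ℝ) * W ^ (-δ) ≤ 1 / 2 ∧ D ≤ W := by
    filter_upwards [h2, Filter.eventually_ge_atTop (3 : ℝ), Filter.eventually_ge_atTop D] with W a b c using ⟨b, a, c⟩
  exact Filter.eventually_atTop.mp h3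

theorem v_le {t : ℕ} {δ W s : ℝ} (hW : 1 ≤ W) (hs : |s| ≤ t * W ^ (2 - δ)) : |s / W ^ 2| ≤ t * W ^ (-δ) := by
  have hW0 : 0 < W := by linarith
  rw [abs_div, abs_of_pos (show (0 : ℝ) < W ^ 2 by positivity), div_le_iff₀ (by positivity)]
  have h1 : W ^ (-δ) * W ^ 2 = W ^ (2 - δ) := by
    rw [← Real.rpow_natCast, ← Real.rpow_add hW0]
    congr 1
    push_cast
    ring
  rw [mul_assoc, h1]
  exact hs

/-- pointwise estimate for T1B -/
theorem ptB (t : ℕ) {δ ε : ℝ} (hε : 0 < ε) (K : ℕ) (hK : 5 ≤ δ * K) (c : ℕ → ℚ) (C : ℝ)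
    (hC : 1 ≤ C) (hc : ∀ v : ℝ, |v| ≤ 1 / 2 → |(1 + v) ^ (3 / 2 : ℝ) - ∑ k ∈ Finset.range K, (c k : ℝ) * v ^ k| ≤ C * |v| ^ K)
    {W s X Y : ℝ} (h3 : 3 ≤ W) (h12 : (t : ℝ) * W ^ (-δ) ≤ 1 / 2) (hD : 2 + C * (t : ℝ) ^ K ≤ W)
    (hs : |s| ≤ t * W ^ (2 - δ)) (hX : X = W ^ 2 + s) (hY : 0 ≤ Y)
    (hd : |Y ^ 2 - X ^ 3| ≤ |X| ^ (1 / (2 + ε))) :
    W ≤ |X| ∧ Y ≤ W ^ 4 ∧ |Y - W ^ 3 * ∑ k ∈ Finset.range K, (c k : ℝ) * (s / W ^ 2) ^ k| ≤ W⁻¹ := by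
  have hW0 : 0 < W := by linarith
  set v : ℝ := s / W ^ 2 with hv
  have hv1 : |v| ≤ t * W ^ (-δ) := v_le (by linarith) hs
  have hv2 : |v| ≤ 1 / 2 := hv1.trans h12
  have hXv : X = W ^ 2 * (1 + v) := by
    rw [hX, hv]
    field_simp
  obtain ⟨hv3, hv4⟩ := abs_le.mp hv2
  have hX1 : W ^ 2 / 2 ≤ X := by
    rw [hXv]
    nlinarith [sq_nonneg W]
  have hX2 : X ≤ 3 / 2 * W ^ 2 := by
    rw [hXv]
    nlinarith [sq_nonneg W]
  have hXW : W ≤ X := by nlinarith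
  have hX0 : 0 < X := by linarith
  have hXa : |X| = X := abs_of_pos hX0
  have hXh : |X| ^ (1 / (2 + ε)) ≤ X ^ (1 / 2 : ℝ) := by
    rw [hXa]
    apply Real.rpow_le_rpow_of_exponent_le (by linarith)
    apply one_div_le_one_div_of_le (by norm_num) (by linarith)
  have hd2 := hd.trans hXh
  set R : ℝ := X ^ (3 / 2 : ℝ) with hR
  have hRp : 0 < R := Real.rpow_pos_of_pos hX0 _
  have hR2 : R ^ 2 = X ^ 3 := by
    rw [hR, ← Real.rpow_natCast, ← Real.rpow_mul hX0.le, ← Real.rpow_natCast]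
    norm_num
  have hRX : R = X ^ (1 / 2 : ℝ) * X := by
    rw [hR]
    nth_rw 3 [← Real.rpow_one X]
    rw [← Real.rpow_add hX0]
    norm_num
  have hXhp : 0 < X ^ (1 / 2 : ℝ) := Real.rpow_pos_of_pos hX0 _
  have h1 : |Y - R| * (Y + R) ≤ X ^ (1 / 2 : ℝ) := by
    rw [← abs_of_pos (show 0 < Y + R by linarith), ← abs_mul]
    have : (Y - R) * (Y + R) = Y ^ 2 - X ^ 3 := by rw [← hR2]; ring
    rw [this]
    exact hd2
  have h2 : |Y - R| ≤ X⁻¹ := by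
    have h4 : |Y - R| * R ≤ X ^ (1 / 2 : ℝ) := by
      refine le_trans ?_ h1
      apply mul_le_mul_of_nonneg_left (by linarith) (abs_nonneg _)
    rw [hRX, ← mul_assoc, mul_comm (|_|) _, mul_assoc] at h4
    have h5 : |Y - X ^ (1 / 2 : ℝ) * X| * X ≤ 1 := by
      by_contra h6
      push Not at h6
      have := mul_lt_mul_of_pos_left h6 hXhp
      linarith
    rw [hRX, inv_eq_one_div, le_div_iff₀ hX0]
    exact h5
  have h6 : |Y - R| ≤ 2 / W ^ 2 := by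
    refine h2.trans ?_
    rw [inv_eq_one_div, div_le_div_iff₀ hX0 (by positivity)]
    linarith
  have hRW : R = W ^ 3 * (1 + v) ^ (3 / 2 : ℝ) := by
    rw [hR, hXv, Real.mul_rpow (by positivity) (by linarith), ← Real.rpow_natCast, ← Real.rpow_mul hW0.le,
      ← Real.rpow_natCast]
    norm_num
  have h7 := hc v hv2
  have h8 : |v| ^ K ≤ (t : ℝ) ^ K * W ^ (-5 : ℝ) := by
    have h9 : |v| ^ K ≤ (t * W ^ (-δ)) ^ K := pow_le_pow_left₀ (abs_nonneg _) hv1 K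
    refine h9.trans ?_
    rw [mul_pow, ← Real.rpow_natCast (W ^ (-δ)), ← Real.rpow_mul hW0.le]
    apply mul_le_mul_of_nonneg_left _ (by positivity)
    apply Real.rpow_le_rpow_of_exponent_le (by linarith)
    linarith
  have hW5 : W ^ (-5 : ℝ) = 1 / W ^ 5 := by
    rw [Real.rpow_neg hW0.le, one_div]
    congr 1
    exact_mod_cast Real.rpow_natCast W 5
  have h9 : |R - W ^ 3 * ∑ k ∈ Finset.range K, (c k : ℝ) * v ^ k| ≤ C * (t : ℝ) ^ K / W ^ 2 := by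
    rw [hRW, ← mul_sub, abs_mul, abs_of_pos (show (0 : ℝ) < W ^ 3 by positivity)]
    calc W ^ 3 * |(1 + v) ^ (3 / 2 : ℝ) - ∑ k ∈ Finset.range K, (c k : ℝ) * v ^ k|
        ≤ W ^ 3 * (C * ((t : ℝ) ^ K * (1 / W ^ 5))) := by
          apply mul_le_mul_of_nonneg_left _ (by positivity)
          refine h7.trans ?_
          apply mul_le_mul_of_nonneg_left _ (by linarith)
          rw [← hW5]
          exact h8
      _ = C * (t : ℝ) ^ K / W ^ 2 := by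
          field_simp
  refine ⟨by rw [hXa]; exact hXW, ?_, ?_⟩
  · have h10 : Y ^ 2 ≤ X ^ 3 + X ^ (1 / 2 : ℝ) := by
      have := (abs_le.mp hd2).2
      linarith
    have h11 : X ^ (1 / 2 : ℝ) ≤ X ^ 3 := by
      rw [← Real.rpow_natCast]
      apply Real.rpow_le_rpow_of_exponent_le (by linarith)
      norm_num
    have h12' : X ^ 3 ≤ (3 / 2 * W ^ 2) ^ 3 := pow_le_pow_left₀ hX0.le hX2 3
    have h13 : Y ^ 2 ≤ (W ^ 4) ^ 2 := by
      have h14 : (9 : ℝ) ≤ W ^ 2 := by nlinarith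
      have h15 : 2 * (3 / 2 * W ^ 2) ^ 3 ≤ (W ^ 4) ^ 2 := by
        have h16 : (W ^ 4) ^ 2 - 2 * (3 / 2 * W ^ 2) ^ 3 = W ^ 6 * (W ^ 2 - 27 / 4) := by ring
        have h17 : 0 ≤ W ^ 6 * (W ^ 2 - 27 / 4) := mul_nonneg (by positivity) (by linarith)
        linarith
      linarith
    exact (pow_le_pow_iff_left₀ hY (by positivity) (by norm_num)).mp h13
  · calc |Y - W ^ 3 * ∑ k ∈ Finset.range K, (c k : ℝ) * v ^ k|
        ≤ |Y - R| + |R - W ^ 3 * ∑ k ∈ Finset.range K, (c k : ℝ) * v ^ k| := abs_sub_le _ _ _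
      _ ≤ 2 / W ^ 2 + C * (t : ℝ) ^ K / W ^ 2 := add_le_add h6 h9
      _ = (2 + C * (t : ℝ) ^ K) / W ^ 2 := by ring
      _ ≤ W / W ^ 2 := by
          apply div_le_div_of_nonneg_right hD (by positivity)
      _ = W⁻¹ := by
          field_simp

theorem T1B (hMONO : ST_MONO) (hSUBY : ST_SUBY) (hCORE : ST_CORE) (hEXTR : ST_EXTR)
    (hBINX : ST_BINX) (hLAUB : ST_LAUB) : ST_T1B := by
  classical
  intro S t ε δ hS hε hδ
  by_contra hne
  -- the sequence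
  let τ : Type := {q : ℤ × (Fin t → ℤ) × ℤ // SU S q.1 ∧ (∀ i, q.2.1 i = 0 ∨ SU S (q.2.1 i)) ∧
    (∀ i, |(q.2.1 i : ℝ)| ≤ |(q.1 : ℝ)| ^ (2 - δ)) ∧ q.2.2 ^ 2 ≠ (q.1 ^ 2 + ∑ i, q.2.1 i) ^ 3}
  obtain ⟨f, hf1, hf2⟩ := hEXTR τ (fun s => s.1.1 ^ 2 + ∑ i, s.1.2.1 i) (fun s => s.1.2.2) ε hε
    (fun s => s.2.2.2.2) (by
      rintro ⟨C, hC⟩
      exact hne ⟨C, fun w a y h1 h2 h3 h4 => hC ⟨(w, a, y), h1, h2, h3, h4⟩⟩)
  set w : ℕ → ℤ := fun j => (f j).1.1 with hw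
  set a : ℕ → Fin t → ℤ := fun j => (f j).1.2.1 with ha
  set y : ℕ → ℤ := fun j => (f j).1.2.2 with hy
  set x : ℕ → ℤ := fun j => w j ^ 2 + ∑ i, a j i with hx
  have hxj : ∀ j : ℕ, (j : ℝ) ≤ |(x j : ℝ)| := hf1
  have hdj : ∀ j, |((y j ^ 2 - x j ^ 3 : ℤ) : ℝ)| ≤ |(x j : ℝ)| ^ (1 / (2 + ε)) := hf2
  have hwS : ∀ j, SU S (w j) := fun j => (f j).2.1
  have haS : ∀ j i, a j i = 0 ∨ SU S (a j i) := fun j => (f j).2.2.1
  have haB : ∀ j i, |(a j i : ℝ)| ≤ |(w j : ℝ)| ^ (2 - δ) := fun j => (f j).2.2.2.1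
  have hne3 : ∀ j, y j ^ 2 ≠ x j ^ 3 := fun j => (f j).2.2.2.2
  have hW1 : ∀ j, (1 : ℝ) ≤ |(w j : ℝ)| := by
    intro j
    have h1 : (1 : ℤ) ≤ |w j| := Int.one_le_abs (hwS j).1
    exact_mod_cast h1
  have hsB : ∀ j, |((∑ i, a j i : ℤ) : ℝ)| ≤ t * |(w j : ℝ)| ^ (2 - δ) := by
    intro j
    push_cast
    refine (Finset.abs_sum_le_sum_abs _ _).trans ?_
    refine (Finset.sum_le_sum fun i _ => haB j i).trans ?_
    simp
  have hxR : ∀ j, (x j : ℝ) = |(w j : ℝ)| ^ 2 + ((∑ i, a j i : ℤ) : ℝ) := by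
    intro j
    rw [sq_abs]
    simp only [hx]
    push_cast
    rfl
  -- binomial series
  obtain ⟨K, hK⟩ := exists_nat_ge (5 / δ)
  have hK5 : 5 ≤ δ * K := by
    rw [div_le_iff₀ hδ] at hK
    linarith
  obtain ⟨c, C, hC, hcv⟩ := hBINX (3 / 2) K (by norm_num) (by norm_num)
  have hcv' : ∀ v : ℝ, |v| ≤ 1 / 2 →
      |(1 + v) ^ (3 / 2 : ℝ) - ∑ k ∈ Finset.range K, (c k : ℝ) * v ^ k| ≤ C * |v| ^ K := by
    intro v hv
    have h1 := hcv v hv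
    push_cast at h1
    exact h1
  obtain ⟨W0, hW0⟩ := thr t hδ (2 + C * (t : ℝ) ^ K)
  -- growth
  have hgrow : ∀ j : ℕ, (j : ℝ) ≤ (t + 1) * |(w j : ℝ)| ^ 2 := by
    intro j
    refine (hxj j).trans ?_
    rw [hxR j]
    refine (abs_add_le _ _).trans ?_
    have h1 : |(w j : ℝ)| ^ (2 - δ) ≤ |(w j : ℝ)| ^ 2 := by
      rw [← Real.rpow_natCast]
      apply Real.rpow_le_rpow_of_exponent_le (hW1 j)
      push_cast
      linarith
    have h2 : (t : ℝ) * |(w j : ℝ)| ^ (2 - δ) ≤ t * |(w j : ℝ)| ^ 2 :=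
      mul_le_mul_of_nonneg_left h1 (by positivity)
    rw [abs_of_nonneg (show (0 : ℝ) ≤ |(w j : ℝ)| ^ 2 by positivity)]
    have h3 := hsB j
    linarith
  have hfinW : ∀ B : ℝ, {j : ℕ | |(w j : ℝ)| ≤ B}.Finite := by
    intro B
    refine (Set.finite_le_nat ⌊((t : ℝ) + 1) * B ^ 2⌋₊).subset fun j hj => ?_
    have h1 : |(w j : ℝ)| ≤ B := hj
    have h2 : |(w j : ℝ)| ^ 2 ≤ B ^ 2 := pow_le_pow_left₀ (abs_nonneg _) h1 2
    exact Nat.le_floor ((hgrow j).trans (mul_le_mul_of_nonneg_left h2 (by positivity)))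
  set M : Set ℕ := {j | W0 ≤ |(w j : ℝ)|} with hM
  have hMi : M.Infinite := by
    have h1 : M = {j : ℕ | |(w j : ℝ)| ≤ W0 ∧ |(w j : ℝ)| ≠ W0}ᶜ := by
      ext j
      simp only [hM, Set.mem_ofPred_eq, Set.mem_compl_iff]
      constructor
      · intro h1 h2
        exact h2.2 (le_antisymm h2.1 h1)
      · intro h1
        by_contra h2
        exact h1 ⟨(not_le.mp h2).le, (not_le.mp h2).ne⟩
    rw [h1]
    exact ((hfinW W0).subset fun j hj => hj.1).infinite_compl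
  obtain ⟨M1, S', r, v, WL, Wi, A, E, σ, hM1M, hM1i, hSS', hS', hE, hind, hσ, hall⟩ :=
    com hMONO hLAUB S hS t M hMi w a (fun j _ => hwS j) (fun j _ => haS j) (by
      intro j _ i
      refine (haB j i).trans ?_
      rw [← Real.rpow_natCast]
      apply Real.rpow_le_rpow_of_exponent_le (hW1 j)
      push_cast
      linarith) (fun B => (hfinW B).subset fun j hj => hj.2)
  have hv0 : ∀ j ∈ M1, ∀ k, 0 < v j k := hind.1
  -- the Laurent polynomial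
  set F : Lau r := σ • (WL ^ 3 * ∑ k ∈ Finset.range K, (c k) • (A * Wi ^ 2) ^ k) with hF
  have hFev : ∀ j ∈ M1, ((evL (v j) F : ℚ) : ℝ) = |(w j : ℝ)| ^ 3 *
      ∑ k ∈ Finset.range K, (c k : ℝ) * (((∑ i, a j i : ℤ) : ℝ) / |(w j : ℝ)| ^ 2) ^ k := by
    intro j hj
    obtain ⟨_, hw1, hw2, hA, hab⟩ := hall j hj
    have hp := hv0 j hj
    have habR : |(w j : ℝ)| = (σ : ℝ) * (w j : ℝ) := by exact_mod_cast hab
    have h1 : evL (v j) F = σ * ((w j : ℚ) ^ 3 * ∑ k ∈ Finset.range K, c k * ((∑ i, (a j i : ℚ)) * ((w j : ℚ)⁻¹) ^ 2) ^ k) := by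
      rw [hF, evL_smul hLAUB hp, evL_mul hLAUB hp, evL_pow hLAUB hp, evL_sum hLAUB hp, hw1]
      congr 2
      apply Finset.sum_congr rfl
      intro k _
      rw [evL_smul hLAUB hp, evL_pow hLAUB hp, evL_mul hLAUB hp, evL_pow hLAUB hp, hA, hw2]
    rw [h1]
    push_cast
    have h2 : |(w j : ℝ)| ^ 3 = (σ : ℝ) * (w j : ℝ) ^ 3 := by
      rw [habR]
      rcases hσ with h | h
      · rw [h]; push_cast; ring
      · rw [h]; push_cast; ring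
    rw [h2, mul_assoc, sq_abs]
    congr 2
    apply Finset.sum_congr rfl
    intro k _
    congr 2
    rw [div_eq_mul_inv, inv_pow]
  have hpt : ∀ j ∈ M1, |(w j : ℝ)| ≤ |(x j : ℝ)| ∧ |(y j : ℝ)| ≤ |(w j : ℝ)| ^ 4 ∧
      |(((|y j| : ℤ) : ℚ) : ℝ) - ((evL (v j) F : ℚ) : ℝ)| ≤ |(w j : ℝ)| ^ (-(1 : ℝ)) := by
    intro j hj
    obtain ⟨h3, h12, hD⟩ := hW0 _ (hM1M hj)
    have h := ptB t hε K hK5 c C hC hcv' (W := |(w j : ℝ)|) (s := ((∑ i, a j i : ℤ) : ℝ)) (X := (x j : ℝ))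
      (Y := |(y j : ℝ)|) h3 h12 hD (hsB j) (hxR j) (abs_nonneg _) (by
        have h1 := hdj j
        push_cast at h1
        rw [sq_abs]
        exact h1)
    refine ⟨h.1, h.2.1, ?_⟩
    rw [hFev j hj, Real.rpow_neg (abs_nonneg _), Real.rpow_one]
    have h1 : (((|y j| : ℤ) : ℚ) : ℝ) = |(y j : ℝ)| := by push_cast; rfl
    rw [h1]
    exact h.2.2
  -- the value y
  set aa : ℝ := max E 4 with haa
  have haa0 : 0 < aa := lt_of_lt_of_le hE (le_max_left _ _)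
  obtain ⟨M2, G, hM2M1, hM2i, hG⟩ := hSUBY r S' M1 v F aa 1 (fun j => |(w j : ℝ)|) (fun j => |y j|)
    hS' hM1i one_pos haa0 hind (fun B => (hfinW B).subset fun j hj => hj.2) (by
      intro j hj
      obtain ⟨h3, _, _⟩ := hW0 _ (hM1M hj)
      have h1 : (1 : ℝ) ≤ |(w j : ℝ)| := hW1 j
      refine ⟨h1, fun k => ?_, ?_, (hpt j hj).2.2⟩
      · exact SQ_mono (Finset.Subset.refl _) (Real.rpow_le_rpow_of_exponent_le h1 (le_max_left _ _))
          ((hall j hj).1 k)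
      · have h2 : |(((|y j| : ℤ) : ℝ))| = |(y j : ℝ)| := by push_cast; exact abs_abs _
        rw [h2]
        refine (hpt j hj).2.1.trans ?_
        rw [← Real.rpow_natCast]
        apply Real.rpow_le_rpow_of_exponent_le h1
        push_cast
        exact le_max_right _ _)
  -- the sign of y
  obtain ⟨s, hM3i⟩ := pig hM2i (fun j => decide (0 < y j))
  set M3 : Set ℕ := {j | j ∈ M2 ∧ decide (0 < y j) = s} with hM3
  have hM3M1 : M3 ⊆ M1 := fun j hj => hM2M1 hj.1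
  refine hCORE r S' M3 v (WL ^ 2 + A) ((if s then (1 : ℚ) else -1) • G) aa ε x y hS' hM3i hε haa0
    (indep_mono hM3M1 hind) ?_ ?_
  · intro B
    refine (Set.finite_le_nat ⌊B⌋₊).subset fun j hj => ?_
    exact Nat.le_floor ((hxj j).trans hj.2)
  · intro j hj
    have hj1 : j ∈ M1 := hM3M1 hj
    obtain ⟨hSQ, hw1, hw2, hA, hab⟩ := hall j hj1
    have hp := hv0 j hj1
    refine ⟨fun k => ?_, ?_, ?_, hne3 j, hdj j⟩
    · refine SQ_mono (Finset.Subset.refl _) ?_ (hSQ k)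
      calc |(w j : ℝ)| ^ E ≤ |(w j : ℝ)| ^ aa := Real.rpow_le_rpow_of_exponent_le (hW1 j) (le_max_left _ _)
        _ ≤ |(x j : ℝ)| ^ aa := Real.rpow_le_rpow (abs_nonneg _) (hpt j hj1).1 haa0.le
    · rw [evL_add hLAUB hp, evL_pow hLAUB hp, hw1, hA]
      simp only [hx]
      push_cast
      rfl
    · have h1 : (((|y j| : ℤ)) : ℚ) = evL (v j) G := hG j hj.1
      rw [evL_smul hLAUB hp, ← h1]
      have h2 : decide (0 < y j) = s := hj.2
      rw [← h2]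
      by_cases h3 : 0 < y j
      · simp only [h3, decide_true, if_true, abs_of_pos h3, one_mul]
      · have h4 : y j ≤ 0 := not_lt.mp h3
        simp only [h3, decide_false, abs_of_nonpos h4]
        push_cast
        simp

end Pool.Agent.Helper94.SUB
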